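import Pool.Agent.Helper94.TC.Example

/-!
# MP_3527c5_gt: a group of infinite cohomological dimension with bounded increments

For the countable abelian group `G = ℤ^∞ × ℤ/2` one has `TC(B_kG) = 2k` for all `k ≥ 1`, so
`α_G(n) = ⌊n/2⌋` and all increments of `α_G` are `0` or `1`.
-/

set_option autoImplicit false

namespace Pool.Agent.Results.MP_3527c5_gt.BoundedIncrements

open Pool.Agent.Helper94.TC

/-- The group `G = ℤ^∞ × ℤ/2` (written multiplicatively) has infinite cohomological dimension, and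
`TC(B_kG) = 2k` for all `k ≥ 1`; so the sets counted by its growth function are finite, and the
increments of the growth function are bounded (by `1`). -/
theorem result : InfiniteCD (Multiplicative ((ℕ →₀ ℤ) × ZMod 2)) ∧
    (∀ k : ℕ, 1 ≤ k → topCpx (BG k (Multiplicative ((ℕ →₀ ℤ) × ZMod 2))) = 2 * k) ∧
    (∀ n : ℕ, {k : ℕ | 1 ≤ k ∧
      topCpx (BG k (Multiplicative ((ℕ →₀ ℤ) × ZMod 2))) ≤ n}.Finite) ∧
    ∃ C : ℤ, ∀ n : ℕ, 1 ≤ n →
      |(growth (Multiplicative ((ℕ →₀ ℤ) × ZMod 2)) (n + 1) : ℤ) -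
        (growth (Multiplicative ((ℕ →₀ ℤ) × ZMod 2)) n : ℤ)| ≤ C := by
  refine ⟨G0_infiniteCD, fun k _ => G0_topCpx k, ?_, 1, ?_⟩
  · intro n
    rw [G0_set]
    exact Set.finite_Icc _ _
  · intro n _
    rw [G0_growth, G0_growth, abs_le]
    omega

end Pool.Agent.Results.MP_3527c5_gt.BoundedIncrements
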